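import Mathlib
import Pool.Agent.Q201.Prings

/-!
# Real Pringsheim singular functions are maximal lineable
-/

set_option autoImplicit false

open Filter Topology

namespace Pool.Agent.Results.MP_1dc069_an.MaximalLineable

/-- `f : I → ℝ` is infinitely differentiable and its Taylor series has radius of convergence zero at
every point of `I` (for every `r > 0` the numbers `|f^{(n)}(x)| r^n / n!` are unbounded). -/
def IsPringsheimSingular (I : Set ℝ) (f : I → ℝ) : Prop :=
  ∃ g : ℝ → ℝ, ContDiffOn ℝ (⊤ : ℕ∞) g I ∧ (∀ x : I, g x = f x) ∧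
    ∀ x ∈ I, ∀ r : ℝ, 0 < r →
      ¬ BddAbove (Set.range fun n : ℕ => |iteratedDerivWithin n g I x| / n.factorial * r ^ n)

/-- bounded sequences -/
abbrev B : Type := lp (fun _ : ℕ => ℝ) ⊤

/-- the coefficient sequence of the function attached to a bounded sequence -/
def co (v : B) (n : ℕ) : ℝ := v (Nat.unpair n).1

theorem co_le (v : B) (n : ℕ) : |co v n| ≤ ‖v‖ := lp.norm_apply_le_norm (by simp) v _

/-- the linear map from bounded sequences to functions -/
noncomputable def Phi (I : Set ℝ) : B →ₗ[ℝ] (I → ℝ) where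
  toFun v := fun x => Pool.Agent.Q201.Prings.Fk (co v) 0 x
  map_add' v w := by
    funext x
    rw [Pi.add_apply]
    unfold Pool.Agent.Q201.Prings.Fk
    rw [← (Pool.Agent.Q201.Prings.term_summable (co v) _ (co_le v) 0 x).tsum_add
      (Pool.Agent.Q201.Prings.term_summable (co w) _ (co_le w) 0 x)]
    refine tsum_congr fun n => ?_
    unfold Pool.Agent.Q201.Prings.term co
    rw [lp.coeFn_add, Pi.add_apply, add_mul]
  map_smul' c v := by
    funext x
    rw [Pi.smul_apply, RingHom.id_apply, smul_eq_mul]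
    unfold Pool.Agent.Q201.Prings.Fk
    rw [← tsum_mul_left]
    refine tsum_congr fun n => ?_
    unfold Pool.Agent.Q201.Prings.term co
    rw [lp.coeFn_smul, Pi.smul_apply, smul_eq_mul, mul_assoc]

theorem uniqueDiff (I : Set ℝ) (hI : I.OrdConnected) (hI' : I.Nontrivial) : UniqueDiffOn ℝ I := by
  apply uniqueDiffOn_convex hI.convex
  obtain ⟨a, ha, b, hb, hab⟩ := hI'.exists_lt
  refine ⟨(a + b) / 2, ?_⟩
  rw [mem_interior]
  exact ⟨Set.Ioo a b, Set.Ioo_subset_Icc_self.trans (hI.out ha hb), isOpen_Ioo,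
    by constructor <;> linarith⟩

theorem phi_ps (I : Set ℝ) (hI : I.OrdConnected) (hI' : I.Nontrivial) (v : B) (hv : v ≠ 0) :
    IsPringsheimSingular I (Phi I v) := by
  have hc := Pool.Agent.Q201.Prings.contDiff_F (co v) ‖v‖ (co_le v)
  refine ⟨Pool.Agent.Q201.Prings.Fk (co v) 0, hc.contDiffOn, fun x => rfl, fun x hx r hr => ?_⟩
  have h1 : ∀ n : ℕ, iteratedDerivWithin n (Pool.Agent.Q201.Prings.Fk (co v) 0) I x =
      Pool.Agent.Q201.Prings.Fk (co v) n x := by
    intro n
    rw [iteratedDerivWithin_eq_iteratedDeriv (uniqueDiff I hI hI')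
      ((hc.of_le (by exact_mod_cast le_top)).contDiffAt) hx,
      Pool.Agent.Q201.Prings.iteratedDeriv_F (co v) ‖v‖ (co_le v)]
  simp only [h1]
  obtain ⟨j, hj⟩ : ∃ j, v j ≠ 0 := by
    by_contra hcon
    push Not at hcon
    apply hv
    ext j
    exact hcon j
  refine Pool.Agent.Q201.Prings.unbounded (co v) ‖v‖ (co_le v) |v j| (abs_pos.2 hj) (fun N => ?_) x r hr
  refine ⟨Nat.pair j N, Nat.right_le_pair j N, ?_⟩
  unfold co
  rw [Nat.unpair_pair]

theorem phi_ne (I : Set ℝ) (hI : I.OrdConnected) (hI' : I.Nontrivial) (v : B) (hv : v ≠ 0) :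
    Phi I v ≠ 0 := by
  intro h0
  obtain ⟨g, hg, hgf, hr⟩ := phi_ps I hI hI' v hv
  obtain ⟨a, ha, -⟩ := hI'
  apply hr a ha 1 one_pos
  refine ⟨0, ?_⟩
  rintro _ ⟨n, rfl⟩
  have h1 : iteratedDerivWithin n g I a = iteratedDerivWithin n (fun _ => (0 : ℝ)) I a := by
    apply iteratedDerivWithin_congr (fun y hy => ?_) ha
    rw [hgf ⟨y, hy⟩, h0]
    rfl
  simp only [h1]
  have h2 : iteratedDerivWithin n (fun _ : ℝ => (0 : ℝ)) I a = 0 := by
    rw [iteratedDerivWithin_const]
    simp
  rw [h2]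
  simp

/-- geometric sequences -/
noncomputable def geo (t : Set.Ioo (0 : ℝ) 1) : B :=
  ⟨fun j => (t : ℝ) ^ j, memℓp_infty ⟨1, by
    rintro _ ⟨j, rfl⟩
    simp only [norm_pow, Real.norm_eq_abs, abs_of_pos t.2.1]
    exact pow_le_one₀ t.2.1.le t.2.2.le⟩⟩

theorem geo_indep : LinearIndependent ℝ geo := by
  have h1 : LinearIndependent ℝ (fun t : Set.Ioo (0 : ℝ) 1 =>
      (⇑(powersHom ℝ (t : ℝ)) : Multiplicative ℕ → ℝ)) := by
    refine (linearIndependent_monoidHom (Multiplicative ℕ) ℝ).comp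
      (fun t : Set.Ioo (0 : ℝ) 1 => powersHom ℝ (t : ℝ)) ?_
    intro s t h
    exact Subtype.ext ((powersHom ℝ).injective h)
  let ev : B →ₗ[ℝ] (Multiplicative ℕ → ℝ) :=
    { toFun := fun v n => v (Multiplicative.toAdd n)
      map_add' := fun v w => rfl
      map_smul' := fun c v => rfl }
  refine LinearIndependent.of_comp ev ?_
  have h2 : ⇑ev ∘ geo = fun t : Set.Ioo (0 : ℝ) 1 =>
      (⇑(powersHom ℝ (t : ℝ)) : Multiplicative ℕ → ℝ) := by
    funext t n
    rfl
  rw [h2]
  exact h1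

/-- For every nondegenerate interval `I` the real functions on `I` that are infinitely differentiable
with Taylor series of radius zero at every point, together with `0`, contain a vector space of
dimension the continuum. -/
theorem result (I : Set ℝ) (hI : I.OrdConnected) (hI' : I.Nontrivial) :
    ∃ M : Submodule ℝ (I → ℝ), Module.rank ℝ M = Cardinal.continuum ∧
      ∀ f ∈ M, f ≠ 0 → IsPringsheimSingular I f := by
  have hker : LinearMap.ker (Phi I) = ⊥ := by
    rw [LinearMap.ker_eq_bot']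
    intro v hv
    by_contra hne
    exact phi_ne I hI hI' v hne hv
  have hind : LinearIndependent ℝ (⇑(Phi I) ∘ geo) := geo_indep.map' (Phi I) hker
  refine ⟨Submodule.span ℝ (Set.range (⇑(Phi I) ∘ geo)), ?_, ?_⟩
  · rw [rank_span hind, Cardinal.mk_range_eq _ hind.injective]
    exact Cardinal.mk_Ioo_real zero_lt_one
  · intro f hf hf0
    have h1 : Submodule.span ℝ (Set.range (⇑(Phi I) ∘ geo)) ≤ LinearMap.range (Phi I) := by
      rw [Submodule.span_le]
      rintro _ ⟨t, rfl⟩
      exact ⟨geo t, rfl⟩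
    obtain ⟨v, rfl⟩ := h1 hf
    exact phi_ps I hI hI' v fun h => hf0 (by rw [h, map_zero])

end Pool.Agent.Results.MP_1dc069_an.MaximalLineable
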